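import Pool.Agent.X63.SemiArc

/-!
`K_{3k+4}` is a semi-arc `k`-visibility graph for every `k`.
-/

set_option autoImplicit false

namespace Pool.Agent.Results.MP_e2d93f_co.CompleteSemiArc

open Pool.Agent.X63 Pool.Agent.X63.SA

/-- For every `k`, the complete graph on `3 k + 4` vertices is a semi-arc `k`-visibility graph. -/
theorem result : ∀ k : ℕ, IsSemiArcVis k (⊤ : SimpleGraph (Fin (3 * k + 4))) := by
  intro k
  refine ⟨fun w => w.val + 1, fun w => ang k w.val, fun v => ⟨by positivity, ang_nonneg k v.val,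
    ang_lt k v.val v.isLt⟩, ?_, ?_⟩
  · intro u v huv
    rw [Set.disjoint_left]
    rintro p ⟨φ, h0, h1, rfl⟩ ⟨ψ, g0, g1, h⟩
    have hu := ang_lt k u.val u.isLt
    have hv := ang_lt k v.val v.isLt
    obtain ⟨e, _⟩ := rayPt_inj _ _ _ _ (by positivity) (by positivity) h0 (lt_of_le_of_lt h1 hu)
      g0 (lt_of_le_of_lt g1 hv) h
    apply huv
    have e' : (u.val : ℝ) = v.val := by linarith
    exact Fin.ext (by exact_mod_cast e')
  · intro u v huv
    constructor
    · intro _
      rcases lt_or_gt_of_ne huv with h | h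
      · exact vis_lt k u v h
      · exact SA.RadVis.symm' (vis_lt k v u h)
    · intro _
      exact (SimpleGraph.top_adj u v).mpr huv

end Pool.Agent.Results.MP_e2d93f_co.CompleteSemiArc
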